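import Pool.Agent.H779R2.Fj.MainF

set_option autoImplicit false

open scoped Manifold ContDiff Topology Bundle
open Set Filter Bundle

namespace Pool.Agent.Results.MP_0a0487_an.ConformalBundleCovered

open Pool.Agent.H721R2 Pool.Agent.H789R2.AN Pool.Agent.H779R2.An Pool.Agent.H779R2.Nu
  Pool.Agent.H779R2.Fi

/-- **Anosov diffeomorphisms with a conformal bundle: coverings.**
Let `f` be a `C²` Anosov diffeomorphism of a closed connected smooth manifold `M`, with splitting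
`TM = Es ⊕ Eu` into bundles of rank at least `2`.  Suppose that `f` is conformal on `Eu`, or on
`Es`, with respect to a continuous Riemannian metric on this bundle (`InvConfOn`); nothing is
assumed on the other bundle.  Then there is a surjective covering map from the vector space
`E ≃ ℝ^(dim M)` on which `M` is modelled onto `M`, and `M` is finitely covered by a torus
`(ℝ/ℤ)^m`. -/
theorem result (E : Type*) [NormedAddCommGroup E] [NormedSpace ℝ E] [FiniteDimensional ℝ E]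
    (M : Type*) [TopologicalSpace M] [T2Space M] [CompactSpace M] [ConnectedSpace M]
    [ChartedSpace E M] [IsManifold 𝓘(ℝ, E) ∞ M] (f : Diffeomorph 𝓘(ℝ, E) 𝓘(ℝ, E) M M 1)
    (hf2 : ContMDiff 𝓘(ℝ, E) 𝓘(ℝ, E) 2 f) (hf2' : ContMDiff 𝓘(ℝ, E) 𝓘(ℝ, E) 2 f.symm)
    (Es Eu : ∀ x : M, Submodule ℝ (TangentSpace 𝓘(ℝ, E) x)) (hA : IsAnosov f Es Eu)
    (ds du : ℕ) (hds : ∀ x, Module.finrank ℝ (Es x) = ds)
    (hdu : ∀ x, Module.finrank ℝ (Eu x) = du) (hds2 : 2 ≤ ds) (hdu2 : 2 ≤ du)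
    (hG : (∃ G, InvConfOn f Eu G) ∨ ∃ G, InvConfOn f Es G) :
    (∃ q : E → M, IsCoveringMap q ∧ Function.Surjective q) ∧
      ∃ (m : ℕ) (q : (Fin m → AddCircle (1 : ℝ)) → M), IsCoveringMap q ∧
        Function.Surjective q ∧ ∀ x, (q ⁻¹' {x}).Finite := by
  refine ⟨(main_confD E M f hf2 hf2' Es Eu hA ds du hds hdu
    (hG.imp (fun h => ⟨hdu2, hds2, h⟩) (fun h => ⟨hds2, hdu2, h⟩))).2, ?_⟩
  obtain ⟨m, A, q, -, -, h1, h2, h3, -⟩ :=
    main_fin E M f hf2 hf2' Es Eu hA ds du hds hdu hds2 hdu2 hG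
  exact ⟨m, q, h1, h2, h3⟩

end Pool.Agent.Results.MP_0a0487_an.ConformalBundleCovered
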