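import Pool.Agent.H779R2.An.MainL
import Pool.Agent.H779R2.An.AC

set_option autoImplicit false

open scoped Manifold ContDiff Topology Bundle
open Set Filter Bundle

namespace Pool.Agent.Results.MP_0a0487_an.QuasiconformalCovered

open Pool.Agent.H721R2 Pool.Agent.H789R2.AN Pool.Agent.H779R2.An

/-- **Quasiconformal Anosov diffeomorphisms live on manifolds covered by Euclidean space.**
Let `f` be a `C²` Anosov diffeomorphism of a closed connected smooth manifold `M` modelled on the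
finite-dimensional space `E`, with splitting `TM = Es ⊕ Eu`, both bundles of positive rank `ds`,
`du`.  Suppose that `f` is uniformly quasiconformal on `Es` and on `Eu` (`UniformlyQC`) and that one
of the following holds:
* `du < ds` and `Eu` carries a continuous `Df`-invariant complex structure (`InvComplexOn`);
* `ds < du` and `Es` carries one;
* `ds ≠ du` and `f` preserves a continuous almost complex structure on `M` (`PreservesAC`).
Then there is a surjective covering map `E → M`, where `E ≅ ℝⁿ`, `n = dim M`. -/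
theorem result (E : Type*) [NormedAddCommGroup E] [NormedSpace ℝ E] [FiniteDimensional ℝ E]
    (M : Type*) [TopologicalSpace M] [T2Space M] [CompactSpace M] [ConnectedSpace M]
    [ChartedSpace E M] [IsManifold 𝓘(ℝ, E) ∞ M] (f : Diffeomorph 𝓘(ℝ, E) 𝓘(ℝ, E) M M 1)
    (hf2 : ContMDiff 𝓘(ℝ, E) 𝓘(ℝ, E) 2 f) (hf2' : ContMDiff 𝓘(ℝ, E) 𝓘(ℝ, E) 2 f.symm)
    (Es Eu : ∀ x : M, Submodule ℝ (TangentSpace 𝓘(ℝ, E) x)) (hA : IsAnosov f Es Eu)
    (N : TangentBundle 𝓘(ℝ, E) M → ℝ) (hN : IsTangentNorm N)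
    (hqs : UniformlyQC f N Es) (hqu : UniformlyQC f N Eu) (ds du : ℕ) (hds1 : 1 ≤ ds)
    (hdu1 : 1 ≤ du) (hds : ∀ x, Module.finrank ℝ (Es x) = ds)
    (hdu : ∀ x, Module.finrank ℝ (Eu x) = du)
    (hJ : (du < ds ∧ ∃ J, InvComplexOn f Eu J) ∨ (ds < du ∧ ∃ J, InvComplexOn f Es J) ∨
      (ds ≠ du ∧ ∃ J : ∀ x : M, TangentSpace 𝓘(ℝ, E) x →ₗ[ℝ] TangentSpace 𝓘(ℝ, E) x,
        PreservesAC f J)) :
    ∃ q : E → M, IsCoveringMap q ∧ Function.Surjective q := by
  refine main_cov E M f hf2 hf2' Es Eu hA N hN hqs hqu ds du hds1 hdu1 hds hdu ?_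
  rcases hJ with h | h | ⟨hne, J, h⟩
  · exact Or.inl h
  · exact Or.inr h
  · obtain ⟨h1, h2⟩ := h.invComplexOn hA
    rcases lt_or_gt_of_ne hne with hlt | hlt
    · exact Or.inr ⟨hlt, J, h1⟩
    · exact Or.inl ⟨hlt, J, h2⟩

end Pool.Agent.Results.MP_0a0487_an.QuasiconformalCovered
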